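import Pool.Agent.TH168.Mil.Geo

set_option autoImplicit false

namespace Pool.Agent.TH138.J1812

open Set Filter Topology MeasureTheory
open scoped ContDiff
open Pool.Agent.TH168.Mil

lemma sinh_pos' {y : ℝ} (hy : 0 < y) : 0 < Real.sinh y := Real.sinh_pos_iff.2 hy

lemma normSq_pt (θ : ℝ) {y : ℝ} (hy : 0 < y) :
    (pt θ y).1 ^ 2 + (pt θ y).2 ^ 2 = (1 / Real.sinh y) ^ 2 := by
  have h := (sinh_pos' hy).ne'
  simp only [pt]
  rw [div_pow, div_pow, ← add_div, Real.cos_sq_add_sin_sq, div_pow, one_pow]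

lemma rr_pt (θ : ℝ) {y : ℝ} (hy : 0 < y) : rr (pt θ y) = 1 / Real.sinh y := by
  have h := sinh_pos' hy
  rw [rr, normSq_pt θ hy, Real.sqrt_sq (by positivity)]

theorem yy_pt (θ : ℝ) {y : ℝ} (hy : 0 < y) : yy (pt θ y) = y := by
  rw [yy, rr_pt θ hy, one_div_one_div, Real.arsinh_sinh]

lemma pos_of_ne {P : ℝ × ℝ} (hP : P ≠ 0) : 0 < P.1 ^ 2 + P.2 ^ 2 := by
  by_contra h
  push Not at h
  have h1 : P.1 ^ 2 = 0 := by nlinarith [sq_nonneg P.1, sq_nonneg P.2]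
  have h2 : P.2 ^ 2 = 0 := by nlinarith [sq_nonneg P.1, sq_nonneg P.2]
  exact hP (Prod.ext (by simpa using h1) (by simpa using h2))

lemma rr_pos {P : ℝ × ℝ} (hP : P ≠ 0) : 0 < rr P := Real.sqrt_pos.2 (pos_of_ne hP)

lemma rr_sq (P : ℝ × ℝ) : rr P ^ 2 = P.1 ^ 2 + P.2 ^ 2 := Real.sq_sqrt (by positivity)

lemma yy_pos {P : ℝ × ℝ} (hP : P ≠ 0) : 0 < yy P := by
  have := rr_pos hP
  exact Real.arsinh_pos_iff.2 (by positivity)

lemma sinh_yy (P : ℝ × ℝ) : Real.sinh (yy P) = 1 / rr P := Real.sinh_arsinh _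

theorem pt_surj {P : ℝ × ℝ} (hP : P ≠ 0) : ∃ y : ℝ, 0 < y ∧ ∃ θ : ℝ, pt θ y = P := by
  have hr := rr_pos hP
  refine ⟨yy P, yy_pos hP, ((P.1 : ℂ) + (P.2 : ℂ) * Complex.I).arg, ?_⟩
  have hn : ‖((P.1 : ℂ) + (P.2 : ℂ) * Complex.I)‖ = rr P := by
    rw [Complex.norm_add_mul_I, rr]
  have h0 : ((P.1 : ℂ) + (P.2 : ℂ) * Complex.I) ≠ 0 := by
    intro h
    rw [h, norm_zero] at hn
    exact hr.ne hn
  rw [pt, Complex.cos_arg h0, Complex.sin_arg, hn, sinh_yy]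
  refine Prod.ext ?_ ?_
  · simp
    field_simp
  · simp
    field_simp

lemma ww_pt (θ : ℝ) {y : ℝ} (hy : 0 < y) :
    ww (pt θ y) = Complex.exp (((2 * θ - phi y : ℝ) : ℂ) * Complex.I) := by
  have h := (sinh_pos' hy).ne'
  rw [ww, yy_pt θ hy, normSq_pt θ hy]
  have h1 : (((pt θ y).1 : ℂ) + ((pt θ y).2 : ℂ) * Complex.I) ^ 2 /
      (((1 / Real.sinh y) ^ 2 : ℝ) : ℂ) = Complex.exp ((θ : ℂ) * Complex.I) ^ 2 := by
    rw [Complex.exp_mul_I]
    have hs : (Complex.sinh (y : ℂ)) ≠ 0 := by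
      rw [← Complex.ofReal_sinh]
      exact_mod_cast h
    simp only [pt]
    push_cast
    field_simp
  rw [h1, ← Complex.exp_nat_mul, ← Complex.exp_add]
  congr 1
  push_cast
  ring

theorem mm_pt {θ y : ℝ} (hy : 0 < y) (k : ℤ) (h : |θ - k * Real.pi - phi y / 2| < Real.pi / 2) :
    phi y / 2 + mm (pt θ y) = θ - k * Real.pi := by
  have h1 : ww (pt θ y) =
      Complex.cos ((2 * (θ - k * Real.pi) - phi y : ℝ) : ℂ) +
        Complex.sin ((2 * (θ - k * Real.pi) - phi y : ℝ) : ℂ) * Complex.I := by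
    rw [ww_pt θ hy, ← Complex.exp_mul_I]
    rw [Complex.exp_eq_exp_iff_exists_int]
    refine ⟨k, ?_⟩
    push_cast
    ring
  rw [abs_lt] at h
  rw [mm, h1, Complex.arg_cos_add_sin_mul_I ⟨by linarith [h.1], by linarith [h.2]⟩]
  ring


/-! ### the cap function -/

lemma W_pos (P : ℝ × ℝ) : 0 < 1 + P.1 ^ 2 + P.2 ^ 2 := by positivity

lemma contDiff_W : ContDiff ℝ ∞ (fun P : ℝ × ℝ => Real.sqrt (1 + P.1 ^ 2 + P.2 ^ 2)) :=
  ContDiff.sqrt (by fun_prop) (fun P => (W_pos P).ne')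

theorem contDiff_G0 : ContDiff ℝ ∞ G0 := by
  unfold G0
  refine contDiff_W.sub ?_
  refine ContDiff.div (by fun_prop) (contDiff_const.add contDiff_W) ?_
  intro P
  have := Real.sqrt_nonneg (1 + P.1 ^ 2 + P.2 ^ 2)
  positivity

lemma fderiv_eq_deriv {G : ℝ × ℝ → ℝ} (hG : Differentiable ℝ G) (P v : ℝ × ℝ) :
    fderiv ℝ G P v = deriv (fun t : ℝ => G (P + t • v)) 0 :=
  ((hG P).lineDeriv_eq_fderiv).symm

lemma diff_fderiv {G : ℝ × ℝ → ℝ} (hG : ContDiff ℝ ∞ G) (v : ℝ × ℝ) :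
    Differentiable ℝ (fun Q => fderiv ℝ G Q v) := by
  have h : ContDiff ℝ 1 (fderiv ℝ G) := hG.fderiv_right (by norm_cast)
  have h2 : ContDiff ℝ 1 (fun Q => fderiv ℝ G Q v) := h.clm_apply contDiff_const
  exact h2.differentiable (by norm_num)

lemma hess_eq {G : ℝ × ℝ → ℝ} (hG : ContDiff ℝ ∞ G) (P v w : ℝ × ℝ) :
    hess G P v w = deriv (fun t : ℝ => deriv (fun s : ℝ => G (P + t • w + s • v)) 0) 0 := by
  rw [hess, fderiv_eq_deriv (diff_fderiv hG v)]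
  congr 1
  ext t
  rw [fderiv_eq_deriv (hG.differentiable (by norm_num))]

lemma deriv_sqrt_add (a t : ℝ) (ha : 0 ≤ a) : HasDerivAt (fun s : ℝ => Real.sqrt (1 + a + (t + s) ^ 2))
    (t / Real.sqrt (1 + a + t ^ 2)) 0 := by
  have h0 : 0 < 1 + a + t ^ 2 := by positivity
  have h1 : HasDerivAt (fun s : ℝ => 1 + a + (t + s) ^ 2) (2 * t) 0 := by
    have := (((hasDerivAt_id (0 : ℝ)).const_add t).pow 2).const_add (1 + a)
    simpa using this
  have h2 := h1.sqrt (by simpa using h0.ne')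
  have h3 : 2 * t / (2 * Real.sqrt (1 + a + (t + 0) ^ 2)) = t / Real.sqrt (1 + a + t ^ 2) := by
    rw [add_zero]
    have := Real.sqrt_pos.2 h0
    field_simp
  rw [h3] at h2
  exact h2

lemma deriv_t_div : HasDerivAt (fun t : ℝ => t / Real.sqrt (1 + 0 + t ^ 2)) 1 0 := by
  have h1 : HasDerivAt (fun t : ℝ => Real.sqrt (1 + 0 + t ^ 2)) 0 0 := by
    have := deriv_sqrt_add 0 0 le_rfl
    simpa using this
  have h2 := (hasDerivAt_id' (0 : ℝ)).fun_div h1 (by norm_num)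
  simpa using h2

theorem hess_G0 : hess G0 0 (1, 0) (1, 0) = 1 ∧ hess G0 0 (1, 0) (0, 1) = -eta ∧
    hess G0 0 (0, 1) (0, 1) = 1 := by
  refine ⟨?_, ?_, ?_⟩
  · rw [hess_eq contDiff_G0]
    have h1 : (fun t : ℝ => deriv (fun s : ℝ => G0 ((0 : ℝ × ℝ) + t • ((1 : ℝ), (0 : ℝ)) +
        s • ((1 : ℝ), (0 : ℝ)))) 0) = fun t : ℝ => t / Real.sqrt (1 + 0 + t ^ 2) := by
      ext t
      rw [← (deriv_sqrt_add 0 t le_rfl).deriv]
      congr 1
      ext s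
      simp [G0]
    rw [h1, deriv_t_div.deriv]
  · rw [hess_eq contDiff_G0]
    have h1 : (fun t : ℝ => deriv (fun s : ℝ => G0 ((0 : ℝ × ℝ) + t • ((0 : ℝ), (1 : ℝ)) +
        s • ((1 : ℝ), (0 : ℝ)))) 0) = fun t : ℝ => -(2 * eta * t) / (1 + Real.sqrt (1 + 0 + t ^ 2)) := by
      ext t
      have h2 := deriv_sqrt_add (t ^ 2) 0 (by positivity)
      have h3 : 0 < 1 + Real.sqrt (1 + t ^ 2 + (0 + 0) ^ 2) := by positivity
      have h4 : HasDerivAt (fun s : ℝ => 2 * eta * (s * t)) (2 * eta * t) 0 := by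
        have := ((hasDerivAt_id (0 : ℝ)).mul_const t).const_mul (2 * eta)
        simpa using this
      have h5 := h2.sub (h4.div (h2.const_add 1) h3.ne')
      have h6 : (fun s : ℝ => G0 ((0 : ℝ × ℝ) + t • ((0 : ℝ), (1 : ℝ)) +
        s • ((1 : ℝ), (0 : ℝ)))) = fun s : ℝ => Real.sqrt (1 + t ^ 2 + (0 + s) ^ 2) -
          2 * eta * (s * t) / (1 + Real.sqrt (1 + t ^ 2 + (0 + s) ^ 2)) := by
        ext s
        simp [G0]
        rw [show 1 + s ^ 2 + t ^ 2 = 1 + t ^ 2 + s ^ 2 by ring]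
      rw [h6]
      refine h5.deriv.trans ?_
      simp
      field_simp
    rw [h1]
    have h7 : HasDerivAt (fun t : ℝ => Real.sqrt (1 + 0 + t ^ 2)) 0 0 := by
      have := deriv_sqrt_add 0 0 le_rfl
      simpa using this
    have h8 : HasDerivAt (fun t : ℝ => -(2 * eta * t)) (-(2 * eta)) 0 := by
      have := ((hasDerivAt_id' (0 : ℝ)).const_mul (2 * eta)).fun_neg
      simpa using this
    have h9 := h8.div (h7.const_add 1) (by norm_num)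
    refine h9.deriv.trans ?_
    simp
    ring
  · rw [hess_eq contDiff_G0]
    have h1 : (fun t : ℝ => deriv (fun s : ℝ => G0 ((0 : ℝ × ℝ) + t • ((0 : ℝ), (1 : ℝ)) +
        s • ((0 : ℝ), (1 : ℝ)))) 0) = fun t : ℝ => t / Real.sqrt (1 + 0 + t ^ 2) := by
      ext t
      rw [← (deriv_sqrt_add 0 t le_rfl).deriv]
      congr 1
      ext s
      simp [G0]
    rw [h1, deriv_t_div.deriv]


/-! ### the polar function -/

lemma contDiffAt_rr {P : ℝ × ℝ} (hP : P ≠ 0) : ContDiffAt ℝ ∞ rr P := by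
  unfold rr
  exact ContDiffAt.sqrt (by fun_prop) (pos_of_ne hP).ne'

lemma contDiffAt_yy {P : ℝ × ℝ} (hP : P ≠ 0) : ContDiffAt ℝ ∞ yy P := by
  unfold yy
  exact Real.contDiff_arsinh.contDiffAt.comp P
    (contDiffAt_const.div (contDiffAt_rr hP) (rr_pos hP).ne')

lemma comp_yy {g : ℝ → ℝ} (hg : ContDiffOn ℝ ∞ g (Ioi 0)) {P : ℝ × ℝ} (hP : P ≠ 0) :
    ContDiffAt ℝ ∞ (fun Q => g (yy Q)) P :=
  (hg.contDiffAt (Ioi_mem_nhds (yy_pos hP))).comp P (contDiffAt_yy hP)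

lemma contDiffOn_coth : ContDiffOn ℝ ∞ coth (Ioi 0) := by
  unfold coth
  exact ContDiffOn.div Real.contDiff_cosh.contDiffOn Real.contDiff_sinh.contDiffOn
    (fun y hy => (sinh_pos' hy).ne')

lemma one_le_coth {y : ℝ} (hy : 0 < y) : 1 ≤ coth y := by
  rw [coth, one_le_div (sinh_pos' hy)]
  exact (Real.sinh_lt_cosh y).le

lemma contDiffAt_FF {L : ℝ}
    (h1 : ContDiff ℝ ∞ (pa L)) (h2 : ContDiff ℝ ∞ (pb L))
    (h3 : ContDiff ℝ ∞ (Pc L)) (h4 : ContDiff ℝ ∞ (Ps L)) (h5 : ContDiff ℝ ∞ (Qc L))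
    (h6 : ContDiff ℝ ∞ (Qs L)) : ContDiff ℝ ∞ (fun q : ℝ × ℝ => FF L q.1 q.2) := by
  unfold FF
  have ha : ContDiff ℝ ∞ (fun q : ℝ × ℝ => q.1 + q.2) := by fun_prop
  have hs : ContDiff ℝ ∞ (fun q : ℝ × ℝ => q.1 - q.2) := by fun_prop
  exact ((h1.comp ha).add (h2.comp hs)).add (contDiff_const.mul
    (((h3.comp ha).mul (h5.comp hs)).sub ((h4.comp ha).mul (h6.comp hs))))

lemma contDiffAt_ww (hphi : ContDiffOn ℝ ∞ phi (Ioi 0)) {P : ℝ × ℝ} (hP : P ≠ 0) :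
    ContDiffAt ℝ ∞ ww P := by
  unfold ww
  have hof : ContDiff ℝ ∞ (fun x : ℝ => (x : ℂ)) := Complex.ofRealCLM.contDiff
  have h1 : ContDiff ℝ ∞ (fun Q : ℝ × ℝ => ((Q.1 : ℂ) + (Q.2 : ℂ) * Complex.I)) :=
    (hof.comp contDiff_fst).add ((hof.comp contDiff_snd).mul contDiff_const)
  have h2 : ContDiff ℝ ∞ (fun Q : ℝ × ℝ => ((Q.1 ^ 2 + Q.2 ^ 2 : ℝ) : ℂ)) :=
    hof.comp (by fun_prop)
  have h3 : ContDiffAt ℝ ∞ (fun Q : ℝ × ℝ => ((phi (yy Q) : ℝ) : ℂ)) P :=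
    hof.contDiffAt.comp P (comp_yy hphi hP)
  have h4 : ((P.1 ^ 2 + P.2 ^ 2 : ℝ) : ℂ) ≠ 0 := by
    have := (pos_of_ne hP).ne'
    exact_mod_cast this
  have h5 : ContDiffAt ℝ ∞ (fun Q : ℝ × ℝ => (((Q.1 : ℂ) + (Q.2 : ℂ) * Complex.I)) ^ 2 /
      ((Q.1 ^ 2 + Q.2 ^ 2 : ℝ) : ℂ)) P := by
    simp only [div_eq_mul_inv]
    exact ContDiffAt.mul (h1.pow 2).contDiffAt (ContDiffAt.inv h2.contDiffAt h4)
  have h6 : ContDiffAt ℝ ∞ (fun Q : ℝ × ℝ => Complex.exp (-((phi (yy Q) : ℝ) : ℂ) * Complex.I)) P :=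
    (h3.neg.mul contDiffAt_const).cexp
  exact h5.mul h6

lemma norm_ww {P : ℝ × ℝ} (hP : P ≠ 0) : ‖ww P‖ = 1 := by
  obtain ⟨y, hy, θ, rfl⟩ := pt_surj hP
  rw [ww_pt θ hy, Complex.norm_exp_ofReal_mul_I]

/-- the pattern part, as a function of `(m, y)` -/
lemma hchi' (hchi : ∀ θ y : ℝ, 1 ≤ |4 * (θ - phi y / 2) * coth y| → chi θ y = 0)
    {θ y : ℝ} (hy : 0 < y) (h : 1 / 4 ≤ |θ - phi y / 2|) : chi θ y = 0 := by
  apply hchi
  rw [abs_mul, abs_mul, abs_of_pos (by norm_num : (0 : ℝ) < 4),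
    abs_of_nonneg (by linarith [one_le_coth hy] : 0 ≤ coth y)]
  nlinarith [one_le_coth hy]

lemma abs_mm_of_re_neg {P : ℝ × ℝ} (h : (ww P).re < 0) : 1 / 4 ≤ |mm P| := by
  have h1 : Real.pi / 2 < |(ww P).arg| := by
    by_contra h2
    push Not at h2
    rw [Complex.abs_arg_le_pi_div_two_iff] at h2
    linarith
  rw [mm, abs_div, abs_of_pos (by norm_num : (0 : ℝ) < 2)]
  linarith [Real.pi_gt_three]

lemma contDiffAt_chi (hphi : ContDiffOn ℝ ∞ phi (Ioi 0)) {θ y : ℝ} (hy : 0 < y) :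
    ContDiffAt ℝ ∞ (fun q : ℝ × ℝ => chi q.1 q.2) (θ, y) := by
  unfold chi
  have hp : ContDiffAt ℝ ∞ (fun q : ℝ × ℝ => phi q.2) (θ, y) :=
    ContDiffAt.comp (g := phi) (f := fun q : ℝ × ℝ => q.2) (θ, y)
      (hphi.contDiffAt (Ioi_mem_nhds hy)) contDiffAt_snd
  have hc : ContDiffAt ℝ ∞ (fun q : ℝ × ℝ => coth q.2) (θ, y) :=
    ContDiffAt.comp (g := coth) (f := fun q : ℝ × ℝ => q.2) (θ, y)
      (contDiffOn_coth.contDiffAt (Ioi_mem_nhds hy)) contDiffAt_snd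
  refine Real.smoothTransition.contDiffAt.comp (θ, y) ?_
  exact contDiffAt_const.mul (contDiffAt_const.sub
    (((contDiffAt_const.mul (contDiffAt_fst.sub (hp.div_const 2))).mul hc).pow 2))

lemma contDiffAt_mm (hphi : ContDiffOn ℝ ∞ phi (Ioi 0)) {P : ℝ × ℝ} (hP : P ≠ 0)
    (hs : ww P ∈ Complex.slitPlane) : ContDiffAt ℝ ∞ mm P := by
  have h1 : ContDiffAt ℝ ∞ Complex.log (ww P) := (Complex.contDiffAt_log hs).restrict_scalars ℝ
  have h2 : ContDiffAt ℝ ∞ (fun Q => Complex.log (ww Q)) P := h1.comp P (contDiffAt_ww hphi hP)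
  have h3 : ContDiffAt ℝ ∞ (fun Q => (Complex.log (ww Q)).im) P :=
    Complex.imCLM.contDiff.contDiffAt.comp P h2
  have h4 : mm = fun Q => (Complex.log (ww Q)).im / 2 := by
    ext Q
    rw [mm, Complex.log_im]
  rw [h4]
  exact h3.div_const 2

lemma contDiffAt_GP {L : ℝ} {P : ℝ × ℝ} (hP : P ≠ 0)
    (hphi : ContDiffOn ℝ ∞ phi (Ioi 0)) (hC : ContDiffOn ℝ ∞ Cc (Ioi 0))
    (hD : ContDiffOn ℝ ∞ Dd (Ioi 0)) (ha : ContDiffOn ℝ ∞ a0 (Ioi 0))
    (h1 : ContDiff ℝ ∞ (pa L)) (h2 : ContDiff ℝ ∞ (pb L))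
    (h3 : ContDiff ℝ ∞ (Pc L)) (h4 : ContDiff ℝ ∞ (Ps L)) (h5 : ContDiff ℝ ∞ (Qc L))
    (h6 : ContDiff ℝ ∞ (Qs L))
    (hchi : ∀ θ y : ℝ, 1 ≤ |4 * (θ - phi y / 2) * coth y| → chi θ y = 0) :
    ContDiffAt ℝ ∞ (GP L) P := by
  have hn := (pos_of_ne hP).ne'
  unfold GP
  refine ContDiffAt.add ?_ ?_
  · refine (contDiffAt_rr hP).mul ?_
    refine ContDiffAt.add (Real.contDiff_cosh.contDiffAt.comp P (contDiffAt_yy hP)) ?_
    refine contDiffAt_const.mul ?_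
    refine ContDiffAt.add (ContDiffAt.add (comp_yy ha hP) ((comp_yy hC hP).mul ?_))
      ((comp_yy hD hP).mul ?_)
    · exact ContDiffAt.div (by fun_prop) (by fun_prop) hn
    · exact ContDiffAt.div (by fun_prop) (by fun_prop) hn
  · by_cases hs : ww P ∈ Complex.slitPlane
    · have hm := contDiffAt_mm hphi hP hs
      have hq : ContDiffAt ℝ ∞ (fun Q : ℝ × ℝ => (phi (yy Q) / 2 + mm Q, yy Q)) P :=
        (((comp_yy hphi hP).div_const 2).add hm).prodMk (contDiffAt_yy hP)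
      have hA : ContDiffAt ℝ ∞ (fun Q : ℝ × ℝ => chi (phi (yy Q) / 2 + mm Q) (yy Q)) P :=
        ContDiffAt.comp (g := fun q : ℝ × ℝ => chi q.1 q.2)
          (f := fun Q : ℝ × ℝ => (phi (yy Q) / 2 + mm Q, yy Q)) P
          (contDiffAt_chi hphi (yy_pos hP)) hq
      have hB : ContDiffAt ℝ ∞ (fun Q : ℝ × ℝ => FF L (phi (yy Q) / 2 + mm Q) (yy Q)) P :=
        ContDiffAt.comp (g := fun q : ℝ × ℝ => FF L q.1 q.2)
          (f := fun Q : ℝ × ℝ => (phi (yy Q) / 2 + mm Q, yy Q)) P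
          (contDiffAt_FF h1 h2 h3 h4 h5 h6).contDiffAt hq
      exact (contDiffAt_rr hP).mul (hA.mul hB)
    · have hre : (ww P).re < 0 := by
        rw [Complex.mem_slitPlane_iff, not_or, not_lt, not_not] at hs
        rcases hs.1.lt_or_eq with h | h
        · exact h
        · exfalso
          have := norm_ww hP
          rw [Complex.ext (h.trans Complex.zero_re.symm) (hs.2.trans Complex.zero_im.symm),
            norm_zero] at this
          exact zero_ne_one this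
      have hev : ∀ᶠ Q in 𝓝 P, (ww Q).re < 0 ∧ Q ≠ 0 := by
        refine Filter.Eventually.and ?_ (isOpen_ne.mem_nhds hP)
        have hc : ContinuousAt (fun Q => (ww Q).re) P :=
          Complex.continuous_re.continuousAt.comp (contDiffAt_ww hphi hP).continuousAt
        exact hc.eventually_lt continuousAt_const hre
      have hz : (fun Q : ℝ × ℝ => rr Q * (chi (phi (yy Q) / 2 + mm Q) (yy Q) *
          FF L (phi (yy Q) / 2 + mm Q) (yy Q))) =ᶠ[𝓝 P] fun _ => 0 := by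
        filter_upwards [hev] with Q hQ
        rw [hchi' hchi (yy_pos hQ.2) (by
          have := abs_mm_of_re_neg hQ.1
          rwa [add_sub_cancel_left])]
        ring
      exact contDiffAt_const.congr_of_eventuallyEq hz

/-- In the cap the polar formula is the cap formula. -/
lemma GP_eq_G0 {L : ℝ} {P : ℝ × ℝ} (hP : P ≠ 0) (hr : rr P ≤ 1000)
    (hin : ∀ θ y : ℝ, 0 < y → phi y ≤ 2 / 5 → chi θ y * FF L θ y = 0)
    (hcap : ∀ y : ℝ, 0 < y → phi y ≤ 0 → Cc y = 0 ∧ Dt y = 0 ∧ a0 y = 0) :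
    GP L P = G0 P := by
  have hrp := rr_pos hP
  have hy := yy_pos hP
  have hph : phi (yy P) ≤ 0 := by
    rw [phi, sinh_yy]
    have : 0 ≤ Real.log (1000 * (1 / rr P)) := by
      apply Real.log_nonneg
      rw [mul_one_div, one_le_div hrp]
      exact hr
    linarith
  obtain ⟨h1, h2, h3⟩ := hcap _ hy hph
  rw [GP, hin _ _ hy (by linarith), h1, h3, Dd, h2, G0]
  have hW : Real.sqrt (1 + P.1 ^ 2 + P.2 ^ 2) = rr P * Real.cosh (yy P) := by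
    rw [show 1 + P.1 ^ 2 + P.2 ^ 2 = (rr P * Real.cosh (yy P)) ^ 2 by
      rw [mul_pow, Real.cosh_sq, sinh_yy]
      have := rr_sq P
      field_simp
      linarith]
    exact Real.sqrt_sq (mul_nonneg hrp.le (Real.cosh_pos _).le)
  have hE : Real.exp (-yy P) = Real.cosh (yy P) - 1 / rr P := by
    rw [← sinh_yy, Real.cosh_sub_sinh]
  rw [hE, hW, ← rr_sq P]
  have hc : Real.cosh (yy P) ^ 2 = (1 / rr P) ^ 2 + 1 := by
    rw [Real.cosh_sq, sinh_yy]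
  have hcp := Real.cosh_pos (yy P)
  have hc2 : rr P ^ 2 * Real.cosh (yy P) ^ 2 = 1 + rr P ^ 2 := by
    rw [hc]
    field_simp
  have h5 : 0 < 1 + rr P * Real.cosh (yy P) := by positivity
  have key : (rr P * Real.cosh (yy P) - 1) / rr P ^ 2 = 1 / (1 + rr P * Real.cosh (yy P)) := by
    rw [div_eq_div_iff (by positivity) h5.ne']
    linear_combination hc2
  have e1 : rr P * (Real.cosh (yy P) - 1 / rr P) = rr P * Real.cosh (yy P) - 1 := by
    field_simp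
  calc rr P * (Real.cosh (yy P) + eta * (0 + 0 * ((P.1 ^ 2 - P.2 ^ 2) / rr P ^ 2) +
        (-(Real.cosh (yy P) - 1 / rr P) + 0) * (2 * P.1 * P.2 / rr P ^ 2))) + rr P * 0
      = rr P * Real.cosh (yy P) - 2 * eta * (P.1 * P.2) *
        ((rr P * (Real.cosh (yy P) - 1 / rr P)) / rr P ^ 2) := by ring
    _ = rr P * Real.cosh (yy P) - 2 * eta * (P.1 * P.2) / (1 + rr P * Real.cosh (yy P)) := by
        rw [e1, key]
        ring

lemma GG_eq_GP {L : ℝ} {P : ℝ × ℝ} (hP : P ≠ 0)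
    (hin : ∀ θ y : ℝ, 0 < y → phi y ≤ 2 / 5 → chi θ y * FF L θ y = 0)
    (hcap : ∀ y : ℝ, 0 < y → phi y ≤ 0 → Cc y = 0 ∧ Dt y = 0 ∧ a0 y = 0) :
    GG L P = GP L P := by
  rw [GG]
  split_ifs with h
  · rw [GP_eq_G0 hP _ hin hcap]
    rw [rr, Real.sqrt_le_left (by norm_num)]
    linarith
  · rfl

lemma ne_zero_of_one_lt {P : ℝ × ℝ} (h : 1 / 4 < P.1 ^ 2 + P.2 ^ 2) : P ≠ 0 := by
  rintro rfl
  simp at h
  linarith

/-- smoothness of the function on the plane -/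
theorem contDiff_GG {L : ℝ}
    (hphi : ContDiffOn ℝ ∞ phi (Ioi 0)) (hC : ContDiffOn ℝ ∞ Cc (Ioi 0))
    (hD : ContDiffOn ℝ ∞ Dd (Ioi 0)) (ha : ContDiffOn ℝ ∞ a0 (Ioi 0))
    (h1 : ContDiff ℝ ∞ (pa L)) (h2 : ContDiff ℝ ∞ (pb L))
    (h3 : ContDiff ℝ ∞ (Pc L)) (h4 : ContDiff ℝ ∞ (Ps L)) (h5 : ContDiff ℝ ∞ (Qc L))
    (h6 : ContDiff ℝ ∞ (Qs L))
    (hin : ∀ θ y : ℝ, 0 < y → phi y ≤ 2 / 5 → chi θ y * FF L θ y = 0)
    (hchi : ∀ θ y : ℝ, 1 ≤ |4 * (θ - phi y / 2) * coth y| → chi θ y = 0)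
    (hcap : ∀ y : ℝ, 0 < y → phi y ≤ 0 → Cc y = 0 ∧ Dt y = 0 ∧ a0 y = 0) :
    ContDiff ℝ ∞ (GG L) := by
  rw [contDiff_iff_contDiffAt]
  intro P
  rcases lt_or_ge (P.1 ^ 2 + P.2 ^ 2) 1 with h | h
  · have hopen : IsOpen {Q : ℝ × ℝ | Q.1 ^ 2 + Q.2 ^ 2 < 1} :=
      isOpen_lt (by fun_prop) continuous_const
    refine contDiff_G0.contDiffAt.congr_of_eventuallyEq ?_
    filter_upwards [hopen.mem_nhds h] with Q hQ
    rw [GG, if_pos hQ]
  · have hP : P ≠ 0 := ne_zero_of_one_lt (by linarith)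
    refine (contDiffAt_GP (L := L) hP hphi hC hD ha h1 h2 h3 h4 h5 h6 hchi).congr_of_eventuallyEq ?_
    filter_upwards [isOpen_ne.mem_nhds hP] with Q hQ
    exact GG_eq_GP hQ hin hcap

lemma cos_two_pt (θ : ℝ) {y : ℝ} (hy : 0 < y) :
    ((pt θ y).1 ^ 2 - (pt θ y).2 ^ 2) / ((pt θ y).1 ^ 2 + (pt θ y).2 ^ 2) = Real.cos (2 * θ) := by
  have h := (sinh_pos' hy).ne'
  rw [normSq_pt θ hy, Real.cos_two_mul']
  simp only [pt]
  field_simp

lemma sin_two_pt (θ : ℝ) {y : ℝ} (hy : 0 < y) :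
    2 * (pt θ y).1 * (pt θ y).2 / ((pt θ y).1 ^ 2 + (pt θ y).2 ^ 2) = Real.sin (2 * θ) := by
  have h := (sinh_pos' hy).ne'
  rw [normSq_pt θ hy, Real.sin_two_mul]
  simp only [pt]
  field_simp

lemma pt_ne (θ : ℝ) {y : ℝ} (hy : 0 < y) : pt θ y ≠ 0 := by
  intro h
  have h1 := normSq_pt θ hy
  rw [h] at h1
  have := sinh_pos' hy
  have h2 : 0 < (1 / Real.sinh y) ^ 2 := by positivity
  rw [← h1] at h2
  simp at h2

lemma fG_eq {L θ y : ℝ} (hy : 0 < y)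
    (hin : ∀ θ y : ℝ, 0 < y → phi y ≤ 2 / 5 → chi θ y * FF L θ y = 0)
    (hcap : ∀ y : ℝ, 0 < y → phi y ≤ 0 → Cc y = 0 ∧ Dt y = 0 ∧ a0 y = 0) :
    fG (GG L) θ y = f0 θ y + chi (phi y / 2 + mm (pt θ y)) y * FF L (phi y / 2 + mm (pt θ y)) y := by
  have h := (sinh_pos' hy).ne'
  rw [fG, GG_eq_GP (pt_ne θ hy) hin hcap, GP, cos_two_pt θ hy, sin_two_pt θ hy, yy_pt θ hy,
    rr_pt θ hy, f0]
  field_simp

lemma f0_periodic (θ y : ℝ) (k : ℤ) : f0 (θ - k * Real.pi) y = f0 θ y := by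
  have h1 : Real.cos (2 * (θ - k * Real.pi)) = Real.cos (2 * θ) := by
    rw [show 2 * (θ - k * Real.pi) = 2 * θ - k * (2 * Real.pi) by ring]
    exact Real.cos_sub_int_mul_two_pi _ _
  have h2 : Real.sin (2 * (θ - k * Real.pi)) = Real.sin (2 * θ) := by
    rw [show 2 * (θ - k * Real.pi) = 2 * θ - k * (2 * Real.pi) by ring]
    exact Real.sin_sub_int_mul_two_pi _ _
  rw [f0, f0, h1, h2]

lemma continuousAt_phi {y : ℝ} (hy : 0 < y) : ContinuousAt phi y := by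
  unfold phi
  have h := sinh_pos' hy
  refine continuousAt_const.mul (ContinuousAt.log ?_ (by positivity))
  exact continuousAt_const.mul Real.continuous_sinh.continuousAt

/-- near a point with `|θ - k π - phi y / 2| ≤ π/2` the Mercator support function of `GG L` is
`ff L` shifted by `k π` -/
theorem fG_GG {L θ y : ℝ} (hy : 0 < y) (k : ℤ)
    (h : |θ - k * Real.pi - phi y / 2| ≤ Real.pi / 2)
    (hin : ∀ θ y : ℝ, 0 < y → phi y ≤ 2 / 5 → chi θ y * FF L θ y = 0)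
    (hchi : ∀ θ y : ℝ, 1 ≤ |4 * (θ - phi y / 2) * coth y| → chi θ y = 0)
    (hcap : ∀ y : ℝ, 0 < y → phi y ≤ 0 → Cc y = 0 ∧ Dt y = 0 ∧ a0 y = 0) :
    ∀ᶠ p : ℝ × ℝ in 𝓝 (θ, y), fG (GG L) p.1 p.2 = ff L (p.1 - k * Real.pi) p.2 := by
  have hcw : ContinuousAt (fun p : ℝ × ℝ => p.1 - k * Real.pi - phi p.2 / 2) (θ, y) := by
    refine ContinuousAt.sub (by fun_prop) (ContinuousAt.div_const ?_ 2)
    exact ContinuousAt.comp (g := phi) (f := fun p : ℝ × ℝ => p.2) (x := (θ, y))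
      (continuousAt_phi hy) continuousAt_snd
  have hypos : ∀ᶠ p : ℝ × ℝ in 𝓝 (θ, y), 0 < p.2 :=
    continuousAt_const.eventually_lt (show ContinuousAt (fun p : ℝ × ℝ => p.2) (θ, y) from continuousAt_snd) hy
  rcases h.lt_or_eq with h | h
  · have hev : ∀ᶠ p : ℝ × ℝ in 𝓝 (θ, y), |p.1 - k * Real.pi - phi p.2 / 2| < Real.pi / 2 :=
      hcw.abs.eventually_lt continuousAt_const h
    filter_upwards [hev, hypos] with p hp hp2
    rw [fG_eq hp2 hin hcap, mm_pt hp2 k hp, ff, f0_periodic]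
  · have hev1 : ∀ᶠ p : ℝ × ℝ in 𝓝 (θ, y), 1 / 4 < |p.1 - k * Real.pi - phi p.2 / 2| := by
      refine continuousAt_const.eventually_lt hcw.abs ?_
      show 1 / 4 < |θ - k * Real.pi - phi y / 2|
      rw [h]
      linarith [Real.pi_gt_three]
    have hev2 : ∀ᶠ p : ℝ × ℝ in 𝓝 (θ, y),
        Real.cos (2 * (p.1 - k * Real.pi - phi p.2 / 2)) < 0 := by
      have hc : ContinuousAt (fun p : ℝ × ℝ => Real.cos (2 * (p.1 - k * Real.pi - phi p.2 / 2)))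
          (θ, y) := Real.continuous_cos.continuousAt.comp (continuousAt_const.mul hcw)
      refine hc.eventually_lt continuousAt_const ?_
      show Real.cos (2 * (θ - k * Real.pi - phi y / 2)) < 0
      rw [← Real.cos_abs, abs_mul, h, abs_of_pos (by norm_num : (0 : ℝ) < 2),
        mul_div_cancel₀ _ (by norm_num : (2 : ℝ) ≠ 0), Real.cos_pi]
      norm_num
    filter_upwards [hev1, hev2, hypos] with p hp1 hp2 hp3
    have hre : (ww (pt p.1 p.2)).re < 0 := by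
      rw [ww_pt p.1 hp3, Complex.exp_ofReal_mul_I_re]
      have e1 : Real.cos (2 * p.1 - phi p.2) =
          Real.cos (2 * (p.1 - k * Real.pi - phi p.2 / 2)) := by
        rw [show 2 * (p.1 - k * Real.pi - phi p.2 / 2) =
          (2 * p.1 - phi p.2) - k * (2 * Real.pi) by ring]
        exact (Real.cos_sub_int_mul_two_pi _ _).symm
      rw [e1]
      exact hp2
    have hz1 : chi (phi p.2 / 2 + mm (pt p.1 p.2)) p.2 = 0 := by
      refine hchi' hchi hp3 ?_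
      rw [add_sub_cancel_left]
      exact abs_mm_of_re_neg hre
    have hz2 : chi (p.1 - k * Real.pi) p.2 = 0 := hchi' hchi hp3 hp1.le
    rw [fG_eq hp3 hin hcap, ff, f0_periodic, hz1, hz2]
    ring

end Pool.Agent.TH138.J1812
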